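import Pool.Agent.H3.S2.Tg
import Pool.Agent.H10.SF.SCON

/-!
# CO2: weight 3 and small denominators, for reduced curves
-/

set_option autoImplicit false

namespace Pool.Agent.H70.S2

open MvPolynomial SC Pool.Agent.H27.LV
open Pool.Agent.H84.SM (dp cr dt)
open Pool.Agent.H92.SF
open Pool.Agent.H3.SF Pool.Agent.H3.S2
open Pool.Agent.H10.SF (hom0 gx_hom bet_hom hq_C Tex card_Tex mem_Tex)

theorem co2_arith (ε j0 sg h m : ℕ) (hm : 1000 * (ε + 1) * (j0 + 1) * (sg + 1) ≤ m)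
    (hh : 1024 * (ε + 1) * h ≤ 64 * m) :
    2 ≤ m ∧ 6 * j0 + h + 3 + 3 * sg < m ∧ 6 * j0 + (j0 + h + 3 * sg) + 3 + 3 * sg < m ∧
      ε * (7 * j0 + (j0 + h + 3 * sg) + 2 * sg) ≤ m := by
  have key : ∀ a b c : ℕ, a ≤ ε + 1 → b ≤ j0 + 1 → c ≤ sg + 1 → 1000 * (a * b * c) ≤ m := by
    intro a b c ha hb hc
    have h1 : a * b * c ≤ (ε + 1) * (j0 + 1) * (sg + 1) :=
      Nat.mul_le_mul (Nat.mul_le_mul ha hb) hc
    have h2 : 1000 * ((ε + 1) * (j0 + 1) * (sg + 1)) = 1000 * (ε + 1) * (j0 + 1) * (sg + 1) := by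
      ring
    exact ((Nat.mul_le_mul_left 1000 h1).trans_eq h2).trans hm
  have k1 := key 1 1 1 (by omega) (by omega) (by omega)
  have k2 := key 1 j0 1 (by omega) (by omega) (by omega)
  have k3 := key 1 1 sg (by omega) (by omega) (by omega)
  have k4 := key ε j0 1 (by omega) (by omega) (by omega)
  have k5 := key ε 1 sg (by omega) (by omega) (by omega)
  have k6 : 16 * (ε * h) + 16 * h ≤ m := by
    have e : 1024 * (ε + 1) * h = 64 * (16 * (ε * h) + 16 * h) := by ring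
    rw [e] at hh
    exact Nat.le_of_mul_le_mul_left hh (by norm_num)
  clear key hm hh
  simp only [one_mul, mul_one] at k1 k2 k3 k4 k5
  have e : ε * (7 * j0 + (j0 + h + 3 * sg) + 2 * sg) =
      8 * (ε * j0) + ε * h + 5 * (ε * sg) := by ring
  rw [e]
  generalize ε * j0 = x at *
  generalize ε * h = y at *
  generalize ε * sg = z at *
  refine ⟨by omega, by omega, by omega, by omega⟩

theorem pf_CO2 (hCNA : T_CNA) (hCND : T_CND) (hCNE : T_CNE) (hSF1 : T_SF1) : T_CO2 := by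
  intro δ j0 c0 ε
  refine ⟨1024 * (ε + 1), 1000 * (ε + 1) * (j0 + 1), by omega, ?_⟩
  intro k F _ _ _ _ _ u dd J hS m G sg S hm hG P hP1 hPT hcf
  have hm1 : 1 ≤ m := by
    have h1 : 1 ≤ 1000 * (ε + 1) * (j0 + 1) * (sg + 1) := Nat.pos_of_ne_zero (by positivity)
    omega
  obtain ⟨-, hui, hpi, hdd, -, -, -⟩ := hSF1 k F u dd δ j0 c0 J hS
  obtain ⟨b, hb, hPs, hK⟩ := hCNA k F u dd δ j0 c0 J hS m G hm1 hG.toCrw P hP1 hPT
  have hβ : ∀ a, ((Ps u dd J m G P).coeff 0).coeff a = (bet u dd J G b).coeff a := by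
    intro a
    rw [hPs, Polynomial.coeff_add, Polynomial.coeff_C_zero]
    unfold zv
    rw [Polynomial.mul_coeff_zero, Polynomial.coeff_X_zero, mul_zero, zero_add]
  have hβh := bet_hom u dd J G b hb.hb
  choose hf Hf hf1 hf2 hf3 hf4 using fun a => hcf 0 a
  obtain ⟨H, hHdef⟩ : ∃ H : MvPolynomial (Fin 3) k, H = ∏ a ∈ Tex, Hf a := ⟨_, rfl⟩
  obtain ⟨h, hhdef⟩ : ∃ h : ℕ, h = ∑ a ∈ Tex, hf a := ⟨_, rfl⟩
  have hH : H.IsHomogeneous h := by
    rw [hHdef, hhdef]
    exact IsHomogeneous.prod _ _ _ fun a _ => hf2 a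
  have hH0 : H ≠ 0 := by
    rw [hHdef]
    exact Finset.prod_ne_zero_iff.2 fun a _ => hf3 a
  have hle : 1024 * (ε + 1) * h ≤ 64 * m := by
    rw [hhdef, Finset.mul_sum, ← card_Tex, ← smul_eq_mul (Tex.card) m]
    exact Finset.sum_le_card_nsmul _ _ _ fun a _ => (hf1 a).le
  obtain ⟨hm2, hc1, hc2, hc3⟩ := co2_arith ε j0 sg h m hm hle
  have hmul : ∀ a b : F, Itg k u a → Itg k u b → Itg k u (a * b) :=
    fun a b h1 h2 => (Bb k u).mul_mem h1 h2
  have hI1 : ∀ a, Itg k u (aeval u H * ((bet u dd J G b).coeff a / G)) := by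
    intro a
    by_cases ha : a ∈ Tex
    · rw [hHdef, ← Finset.mul_prod_erase Tex Hf ha, map_mul, mul_right_comm]
      refine hmul _ _ ?_ (hpi _)
      rw [← hβ]
      exact hf4 a
    · rw [mem_Tex hβh ha, zero_div, mul_zero]
      exact (Bb k u).zero_mem
  have hI2 := hCND k F u dd δ j0 c0 J hS m G sg S hm2 hG b h H hb hH hH0 hc1 hI1
  -- the second polynomial
  obtain ⟨H1, hH1def⟩ : ∃ H1 : MvPolynomial (Fin 3) k, H1 = J * H * S ^ 3 := ⟨_, rfl⟩
  have hH1 : H1.IsHomogeneous (j0 + h + 3 * sg) := by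
    have h1 := (hS.Jh.mul hH).mul (hG.Sh.pow 3)
    rwa [← hH1def, mul_comm sg 3] at h1
  have hH10 : H1 ≠ 0 := by
    rw [hH1def]
    exact mul_ne_zero (mul_ne_zero hS.J0 hH0) (pow_ne_zero _ hG.S0)
  have hI1' : ∀ a, Itg k u (aeval u H1 * ((bet u dd J G b).coeff a / G)) := by
    intro a
    have e : aeval u H1 * ((bet u dd J G b).coeff a / G) =
        aeval u (J * S ^ 3) * (aeval u H * ((bet u dd J G b).coeff a / G)) := by
      rw [hH1def, map_mul, map_mul, map_mul]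
      ring
    rw [e]
    exact hmul _ _ (hpi _) (hI1 a)
  have hI2' : ∀ a, Itg k u (aeval u J ^ 6 * aeval u H1 * G * b.coeff a) := by
    intro a
    have e : aeval u J ^ 6 * aeval u H1 * G * b.coeff a =
        aeval u J ^ 7 * aeval u H * aeval u S ^ 3 * G * b.coeff a := by
      rw [hH1def, map_mul, map_mul, map_pow]
      ring
    rw [e]
    exact hI2 a
  have hI3 := hCNE k F u dd δ j0 c0 J hS m G sg S hm2 hG b (j0 + h + 3 * sg) H1 hb hH1 hH10 hc2
    hI1' hI2'
  obtain ⟨A, hAdef⟩ : ∃ A : MvPolynomial (Fin 3) k, A = J ^ 7 * H1 * S ^ 2 := ⟨_, rfl⟩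
  obtain ⟨α, hα⟩ : ∃ α : ℕ, α = 7 * j0 + (j0 + h + 3 * sg) + 2 * sg := ⟨_, rfl⟩
  have hA : A.IsHomogeneous α := by
    have h1 := ((hS.Jh.pow 7).mul hH1).mul (hG.Sh.pow 2)
    rwa [← hAdef, mul_comm j0 7, mul_comm sg 2, ← hα] at h1
  have hA0 : A ≠ 0 := by
    rw [hAdef]
    exact mul_ne_zero (mul_ne_zero (pow_ne_zero _ hS.J0) hH10) (pow_ne_zero _ hG.S0)
  have hAe : aeval u A = aeval u J ^ 7 * aeval u H1 * aeval u S ^ 2 := by
    rw [hAdef, map_mul, map_mul, map_pow, map_pow]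
  refine ⟨α, A, C (aeval u A) * b, by rw [hα]; exact hc3, ?_, ?_, ?_⟩
  · refine ⟨hA, hA0, ?_, hom0 _ hb.hb, ?_, ?_, ?_, ?_⟩
    · rw [hAdef]
      exact Dvd.dvd.mul_right (Dvd.dvd.mul_right (dvd_pow_self J (by norm_num)) H1) _
    · intro a
      rw [coeff_C_mul, hAe]
      exact hI3 a
    · intro a
      have h0 := hb.hm a
      unfold Hm at h0 ⊢
      have h1 : eu u dd (aeval u A) = (α : F) * aeval u A := by
        have h2 := hA.sum_X_mul_pderiv
        have h3 := congrArg (aeval u) h2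
        rw [map_sum, Fin.sum_univ_three, map_nsmul, nsmul_eq_mul] at h3
        unfold eu
        rw [Fin.sum_univ_three, ← h3]
        simp only [Derivation.add_apply, Derivation.smul_apply, smul_eq_mul, hdd]
        have hx : ∀ l : Fin 3, aeval u (X l * pderiv l A) =
            u l * aeval u (pderiv l A) := fun l => by
          rw [map_mul (aeval u) (X l), aeval_X]
        rw [hx, hx, hx]
      rw [coeff_C_mul, Derivation.leibniz, h0, h1]
      simp only [smul_eq_mul, Int.cast_zero, zero_mul, mul_zero, zero_add, Int.cast_natCast]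
      ring
    · have h0 := hb.inv
      have h1 : ∀ i, C (u i) * pderiv i (C (aeval u A) * b) =
          C (aeval u A) * (C (u i) * pderiv i b) := by
        intro i
        rw [pderiv_C_mul]
        ring
      rw [Finset.sum_congr rfl fun i _ => h1 i, ← Finset.mul_sum, h0, mul_zero]
    · intro a
      have h1 : aeval (fun i => C (aeval u J ^ 2) * gx dd G i) (C (aeval u A) * b) -
          C (aeval u A * aeval u J ^ 6) *
            hq (fun i j => C (hes dd G i j)) (gx dd G) (gx dd G) * dp (fun i => C (u i)) X =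
          C (aeval u A) * bet u dd J G b := by
        rw [hq_C, map_mul, aeval_C, algebraMap_eq, ← mul_sub]
        rfl
      have h2 : aeval u A * (bet u dd J G b).coeff a / G =
          aeval u (J ^ 7 * S ^ 2) * (aeval u H1 * ((bet u dd J G b).coeff a / G)) := by
        rw [hAe, map_mul, map_pow, map_pow]
        ring
      rw [h1, coeff_C_mul, h2]
      exact hmul _ _ (hpi _) (hI1' a)
  · rw [hAdef]
    exact Dvd.dvd.mul_left (dvd_pow_self S (by norm_num)) _
  · intro K _ _ φ D x W b0 hx _ hW h0 hb0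
    have h1 := hK K φ D x W A b0 hx hW hb0
    rw [← h1, h0, mul_zero]

end Pool.Agent.H70.S2
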